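import Pool.Agent.Helper96.T2.Def
import Pool.Agent.Helper65.CKY.Dat

set_option autoImplicit false

/-!
# Project CKY: a second expression of the target

The products of polynomials are left as products, as in the file of helper96 for the arcs.
-/

namespace Pool.Agent.Helper65.CKY

open Pool.Sos71 Pool.EK71
open Pool.Agent.Helper69.EK3 (AP apE)
open Pool.Agent.Helper99.CKC Pool.Agent.Helper42.CKC
open Pool.Agent.Helper11.CKC (CL)
open Pool.Agent.Helper96.T2 (xD pD hm2 mD nD eR2)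

/-- a group with `j = 0`, times `D^(k + 1)` -/
def EV2 (z0 z1 : ℤ) (d : DC) (K : ℕ) (G : GrC) : Ex :=
  Ex.mul (pD d (K - G.k - 1))
    (CX.add (CX.mI (CX.sc2 z0 z1 (CX.sum (fun t => CX.rm (apE (adC 0 t.1)) (mD d t)) G.l)))
      (CX.mul (CX.cj (CX.mul (cRz z0 z1) cY1))
        (CX.sum (fun t => CX.rm (Ex.sc 2 (apE t.1)) (nD d G.k t)) G.l))).r

/-- a group with `j = 1`, times `D^(k + 1)` -/
def EF2 (z0 z1 z2 : ℤ) (d : DC) (K : ℕ) (G : GrC) : Ex :=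
  Ex.mul (pD d (K - G.k - 1))
    (CX.add (CX.mul (CX.mI (cR2 z0 z1 z2))
        (CX.sum (fun t => CX.rm (apE (adC 1 t.1)) (mD d t)) G.l))
      (CX.mul (CX.rm (eRR z0 z1 z2) (CX.cj cY1))
        (CX.sum (fun t => CX.rm (Ex.sc 2 (apE t.1)) (nD d G.k t)) G.l))).r

/-- the mixed terms, without `D^K` -/
def EMy2 (z0 z1 : ℤ) (h : ℕ) (t : ℕ × ℕ × ℤ × ℤ) : Ex :=
  Ex.mul (Ex.mul (Ex.pow (Ex.va 0) t.1)
    (CX.mul (CX.sc2 z0 (Int.neg z1) (CX.sc2 t.2.2.1 t.2.2.2 (cMw0 t.2.1)))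
      (CX.mul cx (CX.add (cZ 2 0) cx))).r)
    (Ex.pow xo (h - 2))

/-- the potentials with `j = 0` -/
def sumV2 (c : List ℤ) (d : DC) (K : ℕ) : List (List ℤ × List GrC) → Ex → Ex
  | [], e => e
  | g :: L, e => sumX (EV2 (dt g.1 c) (dt (0 :: g.1) c) d K) (sumV2 c d K L e) g.2

/-- the potentials with `j = 1` -/
def sumF2 (c : List ℤ) (d : DC) (K : ℕ) : List (List ℤ × List GrC) → Ex → Ex
  | [], e => e
  | g :: L, e => sumX (EF2 (dt g.1 c) (dt (0 :: g.1) c) (dt (0 :: 0 :: g.1) c) d K)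
      (sumF2 c d K L e) g.2

/-- the linear part, without `D^K` -/
def eLy2 (D : DatY) (v : Vy) : Ex :=
  let n := dt D.nu v.c
  let n' := dt (0 :: D.nu) v.c
  Ex.mul (Ex.pow xo D.h) (Ex.bp [[0, Int.mul 2 n', Int.mul 2 (Int.add v.ka n)],
    [Int.mul 2 n], [Int.mul 2 (Int.add v.ka n)]])

/-- the part of the target without the relation -/
def mainy2 (D : DatY) (v : Vy) (s : ℤ) (f : Fl) (L0 L1 : CL) : Ex :=
  let P := P1 D.m
  let z0 := dt P v.c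
  let z1 := dt (0 :: P) v.c
  let z2 := dt (0 :: 0 :: P) v.c
  Ex.add (Ex.mul (pD D.d D.K) (Ex.add
      (Ex.mul (Ex.sc (Int.mul (-2) (Int.mul (Int.add z0 z2) D.Mt))
        (CX.nsq (cGv0 D.Fd s v.gm v.cR v.cI f))) (Ex.pow xo (D.h - 2)))
      (Ex.add (Ex.sc 2 (sumX hm2 (Ex.mul (Ex.pow xo D.h) (Ex.lit 0)) v.HM))
        (sumX (EMy2 z0 z1 D.h) (sumX (EMy2 z1 z2 D.h) (eLy2 D v) L1) L0))))
    (Ex.sc 2 (sumV2 v.c D.d D.K D.V
      (sumF2 v.c D.d D.K D.F (Ex.mul (Ex.pow xo D.h) (Ex.lit 0)))))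

/-- the target -/
def targety2 (D : DatY) (v : Vy) (s r0 r1 r2 : ℤ) (f : Fl) (L0 L1 : CL) (R : List Rm) : Ex :=
  Ex.add (mainy2 D v s f L0 L1)
    (Ex.mul (pD D.d (D.K - D.kL)) (Ex.mul (eCn0 D.rd s r0 r1 r2) (sumX eR2
      (Ex.mul (Ex.pow xo (D.h - 2)) (Ex.lit 0)) R)))

def tIn2 (D : DatY) (v : Vy) : Ex := targety2 D v 1 D.p0 D.p1 D.p2 v.fi D.MI0 D.MI1 v.RI
def tOut2 (D : DatY) (v : Vy) : Ex := targety2 D v (-1) D.q0 D.q1 D.q2 v.fo D.MO0 D.MO1 v.RO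

end Pool.Agent.Helper65.CKY
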