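import Pool.Agent.Helper65.CKY.T2.Def
import Pool.Agent.Helper65.CKY.Mk
import Pool.Agent.Helper96.T2.Val

set_option autoImplicit false

/-!
# Project CKY: the values of the two expressions of the target agree
-/

namespace Pool.Agent.Helper65.CKY

open Complex
open Pool.Sos71 Pool.EK71
open Pool.Agent.Helper69.EK3 (AP apE)
open Pool.Agent.Helper71.EKC
open Pool.Agent.Helper99.CKC Pool.Agent.Helper42.CKC
open Pool.Agent.Helper11.CKC (CL)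
open Pool.Agent.Helper96.T2 (xD pD hm2 mD nD eR2 vD pD_re Dk_v hm2_re eR2_re v_mD v_nD v_sumC
  sumX_mul sumX_congr)

section
variable (y : Pnt)

theorem EMy2_re (z0 z1 : ℤ) (d : DC) (K h : ℕ) (t : ℕ × ℕ × ℤ × ℤ) :
    (EMy z0 z1 d K h t).re y = vD y d ^ K * (EMy2 z0 z1 h t).re y := by
  have e1 : (EMy z0 z1 d K h t).re y = (Ex.mul (Ex.pow (Ex.va 0) t.1)
    (CX.mul (CX.sc2 z0 (Int.neg z1) (CX.sc2 t.2.2.1 t.2.2.2 (cMw0 t.2.1)))
      (CX.mul cx (CX.add (cZ 2 0) cx))).r).re y *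
      ((Ex.pow xo (h - 2)).re y * ev2 y.f y.g (Dk d K)) := rfl
  have e2 : (EMy2 z0 z1 h t).re y = (Ex.mul (Ex.pow (Ex.va 0) t.1)
    (CX.mul (CX.sc2 z0 (Int.neg z1) (CX.sc2 t.2.2.1 t.2.2.2 (cMw0 t.2.1)))
      (CX.mul cx (CX.add (cZ 2 0) cx))).r).re y *
      (Ex.pow xo (h - 2)).re y := rfl
  rw [e1, e2, Dk_v]; ring

theorem eLy2_re (D : DatY) (v : Vy) : (D.eLin v).re y = vD y D.d ^ D.K * (eLy2 D v).re y := by
  have e1 : (D.eLin v).re y = (Ex.pow xo D.h).re y * ev2 y.f y.g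
      (mu2 [[0, Int.mul 2 (dt (0 :: D.nu) v.c), Int.mul 2 (Int.add v.ka (dt D.nu v.c))],
    [Int.mul 2 (dt D.nu v.c)], [Int.mul 2 (Int.add v.ka (dt D.nu v.c))]] (Dk D.d D.K)) := rfl
  have e2 : (eLy2 D v).re y = (Ex.pow xo D.h).re y * ev2 y.f y.g
      [[0, Int.mul 2 (dt (0 :: D.nu) v.c), Int.mul 2 (Int.add v.ka (dt D.nu v.c))],
    [Int.mul 2 (dt D.nu v.c)], [Int.mul 2 (Int.add v.ka (dt D.nu v.c))]] := rfl
  rw [e1, e2, ev2_mu, Dk_v]; ring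

theorem EV2_re (z0 z1 : ℤ) (d : DC) {K : ℕ} {G : GrC} (hk : G.k + 1 ≤ K) :
    (EV z0 z1 d K G).re y = (EV2 z0 z1 d K G).re y := by
  have e1 : (EV z0 z1 d K G).re y = (CX.v y (CX.add (CX.mI (CX.sc2 z0 z1
      (CX.sum (fun t => CX.rm (apE (adC 0 t.1)) (hM d K G.k t)) G.l)))
    (CX.mul (CX.cj (CX.mul (cRz z0 z1) cY1))
      (CX.sum (fun t => CX.rm (Ex.sc 2 (apE t.1)) (hN d K G.k t)) G.l)))).re := rfl
  have e2 : (EV2 z0 z1 d K G).re y = (pD d (K - G.k - 1)).re y * (CX.v y (CX.add (CX.mI (CX.sc2 z0 z1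
      (CX.sum (fun t => CX.rm (apE (adC 0 t.1)) (mD d t)) G.l)))
    (CX.mul (CX.cj (CX.mul (cRz z0 z1) cY1))
      (CX.sum (fun t => CX.rm (Ex.sc 2 (apE t.1)) (nD d G.k t)) G.l)))).re := rfl
  have s1 := v_sumC y (fun t => CX.rm (apE (adC 0 t.1)) (hM d K G.k t))
    (fun t => CX.rm (apE (adC 0 t.1)) (mD d t)) ((vD y d ^ (K - G.k - 1) : ℝ) : ℂ) G.l
    (fun t _ => by rw [CX.v_rm, CX.v_rm, v_mD y d hk]; ring)
  have s2 := v_sumC y (fun t => CX.rm (Ex.sc 2 (apE t.1)) (hN d K G.k t))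
    (fun t => CX.rm (Ex.sc 2 (apE t.1)) (nD d G.k t)) ((vD y d ^ (K - G.k - 1) : ℝ) : ℂ) G.l
    (fun t _ => by rw [CX.v_rm, CX.v_rm, v_nD y d]; ring)
  rw [e1, e2, pD_re, ← re_ofReal_mul]
  congr 1
  rw [CX.v_add, CX.v_add, CX.v_mI, CX.v_mI, CX.v_sc2, CX.v_sc2, CX.v_mul, CX.v_mul, s1, s2]
  ring

theorem EF2_re (z0 z1 z2 : ℤ) (d : DC) {K : ℕ} {G : GrC} (hk : G.k + 1 ≤ K) :
    (EF z0 z1 z2 d K G).re y = (EF2 z0 z1 z2 d K G).re y := by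
  have e1 : (EF z0 z1 z2 d K G).re y = (CX.v y (CX.add (CX.mul (CX.mI (cR2 z0 z1 z2))
      (CX.sum (fun t => CX.rm (apE (adC 1 t.1)) (hM d K G.k t)) G.l))
    (CX.mul (CX.rm (eRR z0 z1 z2) (CX.cj cY1))
      (CX.sum (fun t => CX.rm (Ex.sc 2 (apE t.1)) (hN d K G.k t)) G.l)))).re := rfl
  have e2 : (EF2 z0 z1 z2 d K G).re y = (pD d (K - G.k - 1)).re y * (CX.v y (CX.add
      (CX.mul (CX.mI (cR2 z0 z1 z2))
      (CX.sum (fun t => CX.rm (apE (adC 1 t.1)) (mD d t)) G.l))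
    (CX.mul (CX.rm (eRR z0 z1 z2) (CX.cj cY1))
      (CX.sum (fun t => CX.rm (Ex.sc 2 (apE t.1)) (nD d G.k t)) G.l)))).re := rfl
  have s1 := v_sumC y (fun t => CX.rm (apE (adC 1 t.1)) (hM d K G.k t))
    (fun t => CX.rm (apE (adC 1 t.1)) (mD d t)) ((vD y d ^ (K - G.k - 1) : ℝ) : ℂ) G.l
    (fun t _ => by rw [CX.v_rm, CX.v_rm, v_mD y d hk]; ring)
  have s2 := v_sumC y (fun t => CX.rm (Ex.sc 2 (apE t.1)) (hN d K G.k t))
    (fun t => CX.rm (Ex.sc 2 (apE t.1)) (nD d G.k t)) ((vD y d ^ (K - G.k - 1) : ℝ) : ℂ) G.l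
    (fun t _ => by rw [CX.v_rm, CX.v_rm, v_nD y d]; ring)
  rw [e1, e2, pD_re, ← re_ofReal_mul]
  congr 1
  rw [CX.v_add, CX.v_add, CX.v_mul, CX.v_mul, CX.v_mul, CX.v_mul, s1, s2]
  ring

/-- the groups are within the bound of the powers of `D` -/
def gk (K : ℕ) (L : List (List ℤ × List GrC)) : Bool :=
  L.all fun g => g.2.all fun G => Nat.ble (G.k + 1) K

theorem gk_le {K : ℕ} {L : List (List ℤ × List GrC)} (h : gk K L = true) :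
    ∀ g ∈ L, ∀ G ∈ g.2, G.k + 1 ≤ K := fun g hg G hG =>
  Nat.le_of_ble_eq_true (List.all_eq_true.1 (List.all_eq_true.1 h g hg) G hG)

theorem sumV2_re (c : List ℤ) (d : DC) {K : ℕ} (L : List (List ℤ × List GrC))
    (h : ∀ g ∈ L, ∀ G ∈ g.2, G.k + 1 ≤ K) {a b : Ex} (hab : a.re y = b.re y) :
    (sumV c d K L a).re y = (sumV2 c d K L b).re y := by
  induction L with
  | nil => exact hab
  | cons g L ih =>
    exact sumX_congr y _ _ _ _ g.2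
      (fun G hG => EV2_re y _ _ d (h g List.mem_cons_self G hG))
      (ih fun g' hg' => h g' (List.mem_cons_of_mem _ hg'))

theorem sumF2_re (c : List ℤ) (d : DC) {K : ℕ} (L : List (List ℤ × List GrC))
    (h : ∀ g ∈ L, ∀ G ∈ g.2, G.k + 1 ≤ K) {a b : Ex} (hab : a.re y = b.re y) :
    (sumF c d K L a).re y = (sumF2 c d K L b).re y := by
  induction L with
  | nil => exact hab
  | cons g L ih =>
    exact sumX_congr y _ _ _ _ g.2
      (fun G hG => EF2_re y _ _ _ d (h g List.mem_cons_self G hG))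
      (ih fun g' hg' => h g' (List.mem_cons_of_mem _ hg'))

theorem targety2_re {D : DatY} (hV : gk D.K D.V = true) (hF : gk D.K D.F = true) (v : Vy)
    (s r0 r1 r2 : ℤ) (f : Fl) (L0 L1 : CL) (R : List Rm) :
    (D.target v s r0 r1 r2 f L0 L1 R).re y = (targety2 D v s r0 r1 r2 f L0 L1 R).re y := by
  have h1 := sumX_mul y (EHm D.d D.K) hm2 (Ex.mul (Ex.pow xo D.h) (Ex.lit 0))
    (Ex.mul (Ex.pow xo D.h) (Ex.lit 0)) (vD y D.d ^ D.K) v.HM (fun t _ => hm2_re y D.d D.K t)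
    (by rw [lit0_re]; ring)
  have h2 := sumX_mul y (EMy (dt (P1 D.m) v.c) (dt (0 :: P1 D.m) v.c) D.d D.K D.h)
    (EMy2 (dt (P1 D.m) v.c) (dt (0 :: P1 D.m) v.c) D.h)
    (sumX (EMy (dt (0 :: P1 D.m) v.c) (dt (0 :: 0 :: P1 D.m) v.c) D.d D.K D.h) (D.eLin v) L1)
    (sumX (EMy2 (dt (0 :: P1 D.m) v.c) (dt (0 :: 0 :: P1 D.m) v.c) D.h) (eLy2 D v) L1)
    (vD y D.d ^ D.K) L0 (fun t _ => EMy2_re y _ _ D.d D.K D.h t)
    (sumX_mul y _ _ _ _ _ L1 (fun t _ => EMy2_re y _ _ D.d D.K D.h t) (eLy2_re y D v))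
  have h3 := sumV2_re y v.c D.d D.V (gk_le hV) (sumF2_re y v.c D.d D.F (gk_le hF)
    (a := Ex.mul (Ex.pow xo D.h) (Ex.lit 0)) rfl)
  have h4 := sumX_mul y (eRm D.d (D.K - D.kL)) eR2 (Ex.mul (Ex.pow xo (D.h - 2)) (Ex.lit 0))
    (Ex.mul (Ex.pow xo (D.h - 2)) (Ex.lit 0)) (vD y D.d ^ (D.K - D.kL)) R
    (fun t _ => eR2_re y D.d _ t) (by rw [lit0_re]; ring)
  have e1 : (D.target v s r0 r1 r2 f L0 L1 R).re y =
      (Ex.sc (Int.mul (-2) (Int.mul (Int.add (dt (P1 D.m) v.c) (dt (0 :: 0 :: P1 D.m) v.c)) D.Mt))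
        (CX.nsq (cGv0 D.Fd s v.gm v.cR v.cI f))).re y *
        ((Ex.pow xo (D.h - 2)).re y * ev2 y.f y.g (Dk D.d D.K)) +
      (((2 : ℤ) : ℝ) *
          (sumX (EHm D.d D.K) (Ex.mul (Ex.pow xo D.h) (Ex.lit 0)) v.HM).re y +
        (((2 : ℤ) : ℝ) * (sumV v.c D.d D.K D.V
          (sumF v.c D.d D.K D.F (Ex.mul (Ex.pow xo D.h) (Ex.lit 0)))).re y +
        (sumX (EMy (dt (P1 D.m) v.c) (dt (0 :: P1 D.m) v.c) D.d D.K D.h)
          (sumX (EMy (dt (0 :: P1 D.m) v.c) (dt (0 :: 0 :: P1 D.m) v.c) D.d D.K D.h)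
            (D.eLin v) L1) L0).re y)) +
      (eCn0 D.rd s r0 r1 r2).re y * (sumX (eRm D.d (D.K - D.kL))
        (Ex.mul (Ex.pow xo (D.h - 2)) (Ex.lit 0)) R).re y := rfl
  have e2 : (targety2 D v s r0 r1 r2 f L0 L1 R).re y =
      ((pD D.d D.K).re y * (
        (Ex.sc (Int.mul (-2) (Int.mul (Int.add (dt (P1 D.m) v.c) (dt (0 :: 0 :: P1 D.m) v.c)) D.Mt))
        (CX.nsq (cGv0 D.Fd s v.gm v.cR v.cI f))).re y * (Ex.pow xo (D.h - 2)).re y +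
        (((2 : ℤ) : ℝ) *
          (sumX hm2 (Ex.mul (Ex.pow xo D.h) (Ex.lit 0)) v.HM).re y +
        (sumX (EMy2 (dt (P1 D.m) v.c) (dt (0 :: P1 D.m) v.c) D.h)
          (sumX (EMy2 (dt (0 :: P1 D.m) v.c) (dt (0 :: 0 :: P1 D.m) v.c) D.h)
            (eLy2 D v) L1) L0).re y)) +
      ((2 : ℤ) : ℝ) * (sumV2 v.c D.d D.K D.V
          (sumF2 v.c D.d D.K D.F (Ex.mul (Ex.pow xo D.h) (Ex.lit 0)))).re y) +
      (pD D.d (D.K - D.kL)).re y * ((eCn0 D.rd s r0 r1 r2).re y * (sumX eR2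
      (Ex.mul (Ex.pow xo (D.h - 2)) (Ex.lit 0)) R).re y) := rfl
  rw [e1, e2, h1, h2, h3, h4, pD_re, pD_re, Dk_v]
  ring

theorem tIn2_re {D : DatY} (hV : gk D.K D.V = true) (hF : gk D.K D.F = true) (v : Vy) :
    (D.tIn v).re y = (tIn2 D v).re y :=
  targety2_re y hV hF v _ _ _ _ _ _ _ _

theorem tOut2_re {D : DatY} (hV : gk D.K D.V = true) (hF : gk D.K D.F = true) (v : Vy) :
    (D.tOut v).re y = (tOut2 D v).re y :=
  targety2_re y hV hF v _ _ _ _ _ _ _ _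

end

variable {D : DatY} {K : ℕ} {Ln Ld : ℤ} {BS : List (List ℤ)} {VS : List Vy}

/-- **inner side** from certificates with the second expression -/
theorem side_in2 (hV : gk D.K D.V = true) (hF : gk D.K D.F = true)
    (h : SideY K Ln Ld BS (VS.map fun v => (v.c, tIn2 D v))) :
    SideY K Ln Ld BS (VS.map fun v => (v.c, D.tIn v)) := by
  obtain ⟨QL, h1, h2⟩ := h
  refine ⟨QL, h1, fun R hR => ?_⟩
  obtain ⟨B, hB, H⟩ := h2 R hR
  refine ⟨B, hB, fun y hy => ⟨(H y hy).1, fun vt hvt => ?_⟩⟩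
  obtain ⟨v, hv, rfl⟩ := List.mem_map.1 hvt
  have k := (H y hy).2 (v.c, tIn2 D v) (List.mem_map.2 ⟨v, hv, rfl⟩)
  show _ ≤ (D.tIn v).re y
  rw [tIn2_re y hV hF]
  exact k

/-- **outer side** from certificates with the second expression -/
theorem side_out2 (hV : gk D.K D.V = true) (hF : gk D.K D.F = true)
    (h : SideY K Ln Ld BS (VS.map fun v => (v.c, tOut2 D v))) :
    SideY K Ln Ld BS (VS.map fun v => (v.c, D.tOut v)) := by
  obtain ⟨QL, h1, h2⟩ := h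
  refine ⟨QL, h1, fun R hR => ?_⟩
  obtain ⟨B, hB, H⟩ := h2 R hR
  refine ⟨B, hB, fun y hy => ⟨(H y hy).1, fun vt hvt => ?_⟩⟩
  obtain ⟨v, hv, rfl⟩ := List.mem_map.1 hvt
  have k := (H y hy).2 (v.c, tOut2 D v) (List.mem_map.2 ⟨v, hv, rfl⟩)
  show _ ≤ (D.tOut v).re y
  rw [tOut2_re y hV hF]
  exact k

end Pool.Agent.Helper65.CKY
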